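import Pool.Agent.Lib.MP_b1a3a4_al.MVS.Interfaces

/-!
# Project MVS, module HEMIALG (helper29)
-/

set_option linter.all false

namespace Pool.Agent.Lib.MP_b1a3a4_al.MVS.H29

open Finsupp

section
variable {k G : Type} [CommRing k] [Group G] {χ : Chr G}

abbrev Gam (N : NovRing k G χ) : Type := MonoidAlgebra N.R (Multiplicative ℤ)

/-- `r τ^j` -/
noncomputable def tm (N : NovRing k G χ) (j : ℤ) (r : N.R) : Gam N :=
  MonoidAlgebra.single (Multiplicative.ofAdd j) r

variable (N : NovRing k G χ)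

lemma tm_mul (i j : ℤ) (r s : N.R) : tm N i r * tm N j s = tm N (i + j) (r * s) := by
  rw [tm, tm, tm, MonoidAlgebra.single_mul_single, ofAdd_add]

lemma tm_add (i : ℤ) (r s : N.R) : tm N i (r + s) = tm N i r + tm N i s :=
  MonoidAlgebra.single_add _ _ _

lemma tm_zero (i : ℤ) : tm N i 0 = 0 := MonoidAlgebra.single_zero _

lemma tm_neg (i : ℤ) (r : N.R) : tm N i (-r) = -tm N i r := by
  have h : tm N i (-r) + tm N i r = 0 := by rw [← tm_add, neg_add_cancel, tm_zero]
  exact eq_neg_of_add_eq_zero_left h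

lemma tm_one : tm N 0 1 = 1 := rfl

lemma tm_sum {ι : Type} (s : Finset ι) (i : ℤ) (f : ι → N.R) :
    tm N i (∑ x ∈ s, f x) = ∑ x ∈ s, tm N i (f x) := by
  classical
  induction s using Finset.induction_on with
  | empty => simp [tm_zero]
  | insert a s ha ih => rw [Finset.sum_insert ha, Finset.sum_insert ha, tm_add, ih]

lemma VG_zero (lam a : ℝ) : VG N lam a 0 := fun i => by
  simpa using N.V_zero _

lemma VG_add {lam a : ℝ} {γ γ' : Gam N} (h : VG N lam a γ) (h' : VG N lam a γ') :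
    VG N lam a (γ + γ') := fun i => by
  rw [MonoidAlgebra.coeff_add, Finsupp.add_apply]
  exact N.V_add _ _ _ (h i) (h' i)

lemma VG_sum {ι : Type} (s : Finset ι) {lam a : ℝ} (f : ι → Gam N)
    (h : ∀ i ∈ s, VG N lam a (f i)) : VG N lam a (∑ i ∈ s, f i) := by
  classical
  induction s using Finset.induction_on with
  | empty => simpa using VG_zero N lam a
  | insert x s hx ih =>
    rw [Finset.sum_insert hx]
    exact VG_add N (h x (Finset.mem_insert_self _ _))
      (ih fun i hi => h i (Finset.mem_insert_of_mem hi))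

lemma VG_tm {lam a : ℝ} {j : ℤ} {r : N.R} (h : N.V (a - lam * j) r) :
    VG N lam a (tm N j r) := by
  classical
  intro i
  rw [tm, MonoidAlgebra.coeff_single_apply]
  split_ifs with hij
  · have h1 : j = i := Multiplicative.ofAdd.injective hij
    rw [← h1]
    exact h
  · exact N.V_zero _

lemma VG_mono {lam a b : ℝ} (hab : a ≤ b) {γ : Gam N} (h : VG N lam b γ) : VG N lam a γ :=
  fun i => N.V_mono _ _ _ (by linarith) (h i)

lemma VG_neg {lam a : ℝ} {γ : Gam N} (h : VG N lam a γ) : VG N lam a (-γ) := by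
  intro i
  have h1 : (-γ).coeff (Multiplicative.ofAdd i) = -(γ.coeff (Multiplicative.ofAdd i)) := by
    have h2 : (-γ + γ).coeff (Multiplicative.ofAdd i) = 0 := by
      rw [neg_add_cancel]
      simp
    rw [MonoidAlgebra.coeff_add, Finsupp.add_apply] at h2
    exact eq_neg_of_add_eq_zero_left h2
  rw [h1]
  exact N.V_neg _ _ (h i)

lemma eq_sum_tm (γ : Gam N) :
    γ = ∑ m ∈ γ.coeff.support, tm N (Multiplicative.toAdd m) (γ.coeff m) := by
  conv_lhs => rw [← MonoidAlgebra.sum_coeff_single γ]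
  rfl

lemma VG_mul {lam a b : ℝ} {γ γ' : Gam N} (h : VG N lam a γ) (h' : VG N lam b γ') :
    VG N lam (a + b) (γ * γ') := by
  rw [eq_sum_tm N γ, eq_sum_tm N γ', Finset.sum_mul_sum]
  refine VG_sum N _ _ fun m _ => VG_sum N _ _ fun m' _ => ?_
  rw [tm_mul]
  refine VG_tm N ?_
  have h1 := N.V_mul _ _ _ _ (h (Multiplicative.toAdd m)) (h' (Multiplicative.toAdd m'))
  have h2 : a + b - lam * ((Multiplicative.toAdd m + Multiplicative.toAdd m' : ℤ) : ℝ) =
      (a - lam * ((Multiplicative.toAdd m : ℤ) : ℝ)) +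
        (b - lam * ((Multiplicative.toAdd m' : ℤ) : ℝ)) := by
    push_cast
    ring
  rw [h2]
  exact h1

lemma VG_exists (lam : ℝ) (γ : Gam N) : ∃ a, VG N lam a γ := by
  induction γ using MonoidAlgebra.induction_linear with
  | zero => exact ⟨0, VG_zero N _ _⟩
  | add f g hf hg =>
    obtain ⟨a, ha⟩ := hf
    obtain ⟨b, hb⟩ := hg
    exact ⟨min a b, VG_add N (VG_mono N (min_le_left _ _) ha) (VG_mono N (min_le_right _ _) hb)⟩
  | single m r =>
    obtain ⟨a, ha⟩ := N.V_bdd r
    refine ⟨a + lam * ((Multiplicative.toAdd m : ℤ) : ℝ), ?_⟩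
    have h1 : VG N lam (a + lam * ((Multiplicative.toAdd m : ℤ) : ℝ))
        (tm N (Multiplicative.toAdd m) r) := VG_tm N (by
      rw [add_sub_cancel_right]
      exact ha)
    exact h1

/-- a common lower bound for finitely many monotone predicates -/
lemma exists_common {ι : Type} [Finite ι] (P : ι → ℝ → Prop)
    (hmono : ∀ i a b, a ≤ b → P i b → P i a) (h : ∀ i, ∃ a, P i a) : ∃ a, ∀ i, P i a := by
  classical
  have := Fintype.ofFinite ι
  choose f hf using h
  refine ⟨-∑ i, |f i|, fun i => hmono i _ _ ?_ (hf i)⟩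
  have h1 : |f i| ≤ ∑ i, |f i| :=
    Finset.single_le_sum (f := fun i => |f i|) (fun j _ => abs_nonneg _) (Finset.mem_univ i)
  have h2 := neg_abs_le (f i)
  linarith

variable {H : Type} [AddCommGroup H] [Module (Gam N) H] {W : Type} [Fintype W] (y : W → H)

/-- combinations with coefficients of value `≥ a` -/
noncomputable def SubG (lam a : ℝ) : AddSubgroup H where
  carrier := {h | ∃ γ : W → Gam N, (∀ w, VG N lam a (γ w)) ∧ h = ∑ w, γ w • y w}
  zero_mem' := ⟨fun _ => 0, fun _ => VG_zero N _ _, by simp⟩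
  add_mem' := by
    rintro _ _ ⟨γ, hγ, rfl⟩ ⟨γ', hγ', rfl⟩
    refine ⟨fun w => γ w + γ' w, fun w => VG_add N (hγ w) (hγ' w), ?_⟩
    rw [← Finset.sum_add_distrib]
    exact Finset.sum_congr rfl fun w _ => (add_smul _ _ _).symm
  neg_mem' := by
    rintro _ ⟨γ, hγ, rfl⟩
    refine ⟨fun w => -γ w, fun w => VG_neg N (hγ w), ?_⟩
    rw [← Finset.sum_neg_distrib]
    exact Finset.sum_congr rfl fun w _ => (neg_smul _ _).symm

lemma SubG_smul {lam a b : ℝ} {γ : Gam N} (hγ : VG N lam a γ) {h : H}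
    (hh : h ∈ SubG N y lam b) : γ • h ∈ SubG N y lam (a + b) := by
  obtain ⟨γ', hγ', rfl⟩ := hh
  refine ⟨fun w => γ * γ' w, fun w => VG_mul N hγ (hγ' w), ?_⟩
  rw [Finset.smul_sum]
  exact Finset.sum_congr rfl fun w _ => (mul_smul _ _ _).symm

/-- combinations with coefficients in `R` of value `≥ a` -/
noncomputable def SubV (a : ℝ) : AddSubgroup H where
  carrier := {h | ∃ b : W → N.R, (∀ w, N.V a (b w)) ∧ h = ∑ w, tm N 0 (b w) • y w}
  zero_mem' := ⟨fun _ => 0, fun _ => N.V_zero _, by simp [tm_zero]⟩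
  add_mem' := by
    rintro _ _ ⟨γ, hγ, rfl⟩ ⟨γ', hγ', rfl⟩
    refine ⟨fun w => γ w + γ' w, fun w => N.V_add _ _ _ (hγ w) (hγ' w), ?_⟩
    rw [← Finset.sum_add_distrib]
    refine Finset.sum_congr rfl fun w _ => ?_
    rw [tm_add, add_smul]
  neg_mem' := by
    rintro _ ⟨γ, hγ, rfl⟩
    refine ⟨fun w => -γ w, fun w => N.V_neg _ _ (hγ w), ?_⟩
    rw [← Finset.sum_neg_distrib]
    refine Finset.sum_congr rfl fun w _ => ?_
    rw [tm_neg, neg_smul]

lemma SubV_mono {a b : ℝ} (hab : a ≤ b) {h : H} (hh : h ∈ SubV N y b) : h ∈ SubV N y a := by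
  obtain ⟨γ, hγ, rfl⟩ := hh
  exact ⟨γ, fun w => N.V_mono _ _ _ hab (hγ w), rfl⟩

lemma SubV_le_SubG {lam a : ℝ} {h : H} (hh : h ∈ SubV N y a) : h ∈ SubG N y lam a := by
  obtain ⟨γ, hγ, rfl⟩ := hh
  exact ⟨fun w => tm N 0 (γ w), fun w => VG_tm N (by simpa using hγ w), rfl⟩

lemma SubV_smul {a b : ℝ} {r : N.R} (hr : N.V a r) {h : H} (hh : h ∈ SubV N y b) :
    tm N 0 r • h ∈ SubV N y (a + b) := by
  obtain ⟨γ, hγ, rfl⟩ := hh
  refine ⟨fun w => r * γ w, fun w => N.V_mul _ _ _ _ hr (hγ w), ?_⟩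
  rw [Finset.smul_sum]
  refine Finset.sum_congr rfl fun w _ => ?_
  rw [← mul_smul, tm_mul, add_zero]

lemma SubV_tau {a c : ℝ} (i : ℤ) (hi : ∀ w, tm N i 1 • y w ∈ SubV N y (-c)) {h : H}
    (hh : h ∈ SubV N y a) : tm N i 1 • h ∈ SubV N y (a - c) := by
  obtain ⟨γ, hγ, rfl⟩ := hh
  rw [Finset.smul_sum]
  refine AddSubgroup.sum_mem _ fun w _ => ?_
  have h1 : tm N i 1 • tm N 0 (γ w) • y w = tm N 0 (γ w) • tm N i 1 • y w := by
    rw [← mul_smul, ← mul_smul, tm_mul, tm_mul, add_zero, zero_add, one_mul, mul_one]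
  rw [h1, sub_eq_add_neg]
  exact SubV_smul N y (hγ w) (hi w)

lemma V_one : N.V 0 1 := by
  have h := N.V_ι 1 1
  rw [val_one, ← MonoidAlgebra.one_def, map_one] at h
  exact h

lemma y_mem (w : W) : y w ∈ SubV N y 0 := by
  classical
  refine ⟨fun w' => if w' = w then 1 else 0, fun w' => ?_, ?_⟩
  · dsimp only
    split_ifs
    · exact V_one N
    · exact N.V_zero _
  · rw [Finset.sum_eq_single w]
    · dsimp only
      rw [if_pos rfl, tm_one, one_smul]
    · intro w' _ hne
      dsimp only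
      rw [if_neg hne, tm_zero, zero_smul]
    · intro h
      exact absurd (Finset.mem_univ w) h

lemma tau_pow {c : ℝ} (i : ℤ) (hi : ∀ w, tm N i 1 • y w ∈ SubV N y (-c)) (n : ℕ) (w : W) :
    tm N (n * i) 1 • y w ∈ SubV N y (-(c * n)) := by
  induction n with
  | zero =>
    have h1 := y_mem N y w
    simp only [Nat.cast_zero, zero_mul, mul_zero, neg_zero, tm_one, one_smul]
    exact h1
  | succ n ih =>
    have h1 := SubV_tau N y i hi ih
    rw [← mul_smul, tm_mul, one_mul] at h1
    have h2 : i + (n : ℤ) * i = ((n + 1 : ℕ) : ℤ) * i := by push_cast; ring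
    have h3 : -(c * (n : ℝ)) - c = -(c * ((n + 1 : ℕ) : ℝ)) := by push_cast; ring
    rw [h2, h3] at h1
    exact h1

end

/-- HEMIALG -/
theorem hemialg (hWalk : WalkStatement) : HemiAlgStatement := by
  classical
  intro k G _ _ χ N H _ _ W X _ _ y e h1 h2 h3
  have h1' : ∀ h : H, ∃ r : W → N.R, h = ∑ w, tm N 0 (r w) • y w := h1
  -- every element is in some `SubV`
  have hV : ∀ h : H, ∃ a, h ∈ SubV N y a := by
    intro h
    obtain ⟨r, hr⟩ := h1' h
    obtain ⟨a, ha⟩ := exists_common (fun w a => N.V a (r w))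
      (fun w a b hab h => N.V_mono _ _ _ hab h) fun w => N.V_bdd (r w)
    exact ⟨a, r, ha, hr⟩
  -- Step C
  have hC : ∀ lam : ℝ, ∀ w, y w ∈ SubG N y lam 1 := by
    intro lam
    obtain ⟨a0, ha0⟩ := exists_common (fun x a => e x ∈ SubV N y a)
      (fun x a b hab h => SubV_mono N y hab h) fun x => hV (e x)
    choose Cm hCm using fun w => h2 (y w)
    obtain ⟨c0, hc0⟩ := exists_common (fun (p : W × X) a => VG N lam a (Cm p.1 p.2))
      (fun p a b hab h => VG_mono N hab h) fun p => VG_exists N lam _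
    obtain ⟨B, hB, hBe⟩ := h3 lam (1 - a0 - c0)
    intro w
    rw [hCm w]
    refine AddSubgroup.sum_mem _ fun x _ => ?_
    rw [hBe x]
    have h4 : ∑ x', B x x' • e x' ∈ SubG N y lam (1 - c0) := by
      refine AddSubgroup.sum_mem _ fun x' _ => ?_
      have h5 := SubG_smul N y (hB x x') (SubV_le_SubG N y (lam := lam) (ha0 x'))
      rw [show 1 - a0 - c0 + a0 = 1 - c0 by ring] at h5
      exact h5
    have h6 := SubG_smul N y (hc0 (w, x)) h4
    rw [show c0 + (1 - c0) = 1 by ring] at h6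
    exact h6
  -- Step D
  obtain ⟨c, hc1, hcp, hcm⟩ : ∃ c : ℝ, 1 ≤ c ∧ (∀ w, tm N 1 1 • y w ∈ SubV N y (-c)) ∧
      ∀ w, tm N (-1) 1 • y w ∈ SubV N y (-c) := by
    obtain ⟨a, ha⟩ := exists_common
      (fun (p : W × Bool) a => tm N (if p.2 then 1 else -1) 1 • y p.1 ∈ SubV N y a)
      (fun p a b hab h => SubV_mono N y hab h) fun p => hV _
    refine ⟨max 1 (-a), le_max_left _ _, fun w => ?_, fun w => ?_⟩
    · refine SubV_mono N y (b := a) ?_ ?_
      · have := le_max_right 1 (-a)
        linarith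
      · simpa using ha (w, true)
    · refine SubV_mono N y (b := a) ?_ ?_
      · have := le_max_right 1 (-a)
        linarith
      · simpa using ha (w, false)
  have hD : ∀ (j : ℤ) (w : W), tm N j 1 • y w ∈ SubV N y (-(c * |(j : ℝ)|)) := by
    intro j w
    rcases le_total 0 j with hj | hj
    · obtain ⟨m, rfl⟩ := Int.eq_ofNat_of_zero_le hj
      have h4 := tau_pow N y 1 hcp m w
      rw [mul_one] at h4
      simpa using h4
    · obtain ⟨m, hm⟩ := Int.eq_ofNat_of_zero_le (show 0 ≤ -j by omega)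
      have h4 := tau_pow N y (-1) hcm m w
      have h5 : (m : ℤ) * (-1) = j := by omega
      rw [h5] at h4
      have h6 : |(j : ℝ)| = m := by
        have h7 : (j : ℝ) = -(m : ℝ) := by
          have : j = -(m : ℤ) := by omega
          rw [this]
          push_cast
          ring
        rw [h7, abs_neg, Nat.abs_cast]
      rw [h6]
      exact h4
  -- Step E
  have hE : ∀ w, y w ∈ SubV N y 1 := by
    intro w
    have h4 := hWalk H (fun j x h => ∃ (r : N.R) (w : W), N.V x r ∧ h = tm N j r • y w) c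
      (by linarith) (fun μ _ => by
        refine ⟨1, one_pos, ?_⟩
        choose γ hγ hγy using fun w => hC μ w
        refine ⟨(Finset.univ : Finset (W × W)).biUnion fun p =>
          (γ p.1 p.2).coeff.support.image Multiplicative.toAdd, ?_⟩
        rintro j x h ⟨r, w, hr, rfl⟩
        have h5 : tm N j r • y w = ∑ w', ∑ m ∈ (γ w w').coeff.support,
            tm N (j + Multiplicative.toAdd m) (r * (γ w w').coeff m) • y w' := by
          conv_lhs => rw [hγy w]
          rw [Finset.smul_sum]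
          refine Finset.sum_congr rfl fun w' _ => ?_
          conv_lhs => rw [eq_sum_tm N (γ w w')]
          rw [← mul_smul, Finset.mul_sum, Finset.sum_smul]
          refine Finset.sum_congr rfl fun m _ => ?_
          rw [tm_mul]
        rw [h5]
        refine AddSubgroup.sum_mem _ fun w' _ => AddSubgroup.sum_mem _ fun m hm => ?_
        refine AddSubgroup.subset_closure ?_
        refine ⟨Multiplicative.toAdd m, ?_, r * (γ w w').coeff m, w', ?_, rfl⟩
        · rw [Finset.mem_biUnion]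
          exact ⟨(w, w'), Finset.mem_univ _, Finset.mem_image_of_mem _ hm⟩
        · have h6 := N.V_mul _ _ _ _ hr (hγ w w' (Multiplicative.toAdd m))
          rw [show x + 1 - μ * ((Multiplicative.toAdd m : ℤ) : ℝ) =
            x + (1 - μ * ((Multiplicative.toAdd m : ℤ) : ℝ)) by ring]
          exact h6) (y w) 0 0 ⟨1, w, V_one N, by rw [tm_one, one_smul]⟩ 1
    have h7 : AddSubgroup.closure {h' : H | ∃ (j : ℤ) (x : ℝ),
        (∃ (r : N.R) (w : W), N.V x r ∧ h' = tm N j r • y w) ∧ c * |(j : ℝ)| + 1 ≤ x} ≤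
        SubV N y 1 := by
      rw [AddSubgroup.closure_le]
      rintro h' ⟨j, x, ⟨r, w', hr, rfl⟩, hx⟩
      have h8 := SubV_smul N y hr (hD j w')
      rw [← mul_smul, tm_mul, zero_add, mul_one] at h8
      exact SubV_mono N y (by linarith) h8
    exact h7 h4
  -- Step F
  choose B hB hBy using hE
  have hu : IsUnit (1 - (Matrix.of B : Matrix W W N.R)) := N.inv W _ 1 one_pos hB
  obtain ⟨U, hU⟩ := hu.exists_left_inv
  have hy0 : ∀ w, y w = 0 := by
    intro w
    have h4 : ∀ u, ∑ w', tm N 0 ((1 - (Matrix.of B : Matrix W W N.R)) u w') • y w' = 0 := by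
      intro u
      have h5 : ∀ w', tm N 0 ((1 - (Matrix.of B : Matrix W W N.R)) u w') • y w' =
          tm N 0 ((1 : Matrix W W N.R) u w') • y w' - tm N 0 (B u w') • y w' := by
        intro w'
        rw [Matrix.sub_apply, Matrix.of_apply, sub_eq_add_neg, tm_add, tm_neg, add_smul, neg_smul,
          sub_eq_add_neg]
      rw [Finset.sum_congr rfl fun w' _ => h5 w', Finset.sum_sub_distrib, ← hBy u, sub_eq_zero]
      rw [Finset.sum_eq_single u]
      · rw [Matrix.one_apply_eq, tm_one, one_smul]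
      · intro w' _ hne
        rw [Matrix.one_apply_ne (Ne.symm hne), tm_zero, zero_smul]
      · intro h
        exact absurd (Finset.mem_univ u) h
    have h5 : y w = ∑ w', tm N 0 ((1 : Matrix W W N.R) w w') • y w' := by
      rw [Finset.sum_eq_single w]
      · rw [Matrix.one_apply_eq, tm_one, one_smul]
      · intro w' _ hne
        rw [Matrix.one_apply_ne (Ne.symm hne), tm_zero, zero_smul]
      · intro h
        exact absurd (Finset.mem_univ w) h
    rw [h5, ← hU]
    have h6 : ∀ w', tm N 0 ((U * (1 - (Matrix.of B : Matrix W W N.R))) w w') • y w' =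
        ∑ u, tm N 0 (U w u) • tm N 0 ((1 - (Matrix.of B : Matrix W W N.R)) u w') • y w' := by
      intro w'
      rw [Matrix.mul_apply, tm_sum, Finset.sum_smul]
      refine Finset.sum_congr rfl fun u _ => ?_
      rw [← mul_smul, tm_mul, add_zero]
    rw [Finset.sum_congr rfl fun w' _ => h6 w', Finset.sum_comm]
    refine Finset.sum_eq_zero fun u _ => ?_
    rw [← Finset.smul_sum, h4 u, smul_zero]
  intro h
  obtain ⟨r, hr⟩ := h1' h
  rw [hr]
  exact Finset.sum_eq_zero fun w _ => by rw [hy0 w, smul_zero]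

end Pool.Agent.Lib.MP_b1a3a4_al.MVS.H29
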