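import Pool.Agent.Lib.MP_b1a3a4_al.MVS.Interfaces

/-!
# Project MVS, module TOPFP (helper29)
-/

set_option linter.all false

namespace Pool.Agent.Lib.MP_b1a3a4_al.MVS.H29

open Finsupp

/-- type `FP_{n+1}` implies type `FP_n` -/
lemma isFP_of_succ (R : Type) [Ring R] : ∀ (n : ℕ) (A : Type) [AddCommGroup A] [Module R A],
    IsFP R (n + 1) A → IsFP R n A
  | 0, A, _, _, h => by
    obtain ⟨r, f, hf, -⟩ := h
    exact Module.Finite.of_surjective f hf
  | n + 1, A, _, _, h => by
    obtain ⟨r, f, hf, hk⟩ := h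
    exact ⟨r, f, hf, isFP_of_succ R n _ hk⟩

lemma isFP_of_le (R : Type) [Ring R] (A : Type) [AddCommGroup A] [Module R A] {m n : ℕ}
    (hmn : m ≤ n) (h : IsFP R n A) : IsFP R m A := by
  induction n, hmn using Nat.le_induction with
  | base => exact h
  | succ n _ ih => exact ih (isFP_of_succ R n A h)

/-- an infinite group generated by one element is infinite cyclic -/
lemma exists_equiv_int {Q : Type} [Group Q] [Infinite Q] (g : Q)
    (hg : ∀ x, x ∈ Subgroup.zpowers g) : Nonempty (Multiplicative ℤ ≃* Q) := by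
  have h0 : orderOf g = 0 := Infinite.orderOf_eq_zero_of_forall_mem_zpowers hg
  have h1 : ¬ IsOfFinOrder g := orderOf_eq_zero_iff.1 h0
  have h2 : Function.Injective fun n : ℤ => g ^ n := injective_zpow_iff_not_isOfFinOrder.2 h1
  refine ⟨MulEquiv.ofBijective (zpowersHom Q g) ⟨fun a b hab => ?_, fun x => ?_⟩⟩
  · have h3 : g ^ (Multiplicative.toAdd a) = g ^ (Multiplicative.toAdd b) := by
      simpa [zpowersHom_apply] using hab
    exact Multiplicative.toAdd.injective (h2 h3)
  · obtain ⟨n, hn⟩ := hg x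
    exact ⟨Multiplicative.ofAdd n, by simpa [zpowersHom_apply] using hn⟩

/-- adding one element which normalises the group -/
lemma fp_step (hGrp : FpgrpStatement) (hFin : FpfinStatement) (hIso : FpisoStatement)
    (k P : Type) [CommRing k] [Group P] (n : ℕ) (S : Subgroup P) (t : P)
    (ht1 : ∀ s ∈ S, t * s * t⁻¹ ∈ S) (ht2 : ∀ s ∈ S, t⁻¹ * s * t ∈ S) (hS : FPn k S n) :
    FPn k (S ⊔ Subgroup.zpowers t : Subgroup P) n := by
  classical
  set G : Subgroup P := S ⊔ Subgroup.zpowers t with hG
  have hSG : S ≤ G := le_sup_left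
  have htG : t ∈ G := le_sup_right (a := S) (Subgroup.mem_zpowers t)
  have htN : t ∈ Subgroup.normalizer (S : Set P) := by
    rw [Subgroup.mem_normalizer_iff]
    intro h
    refine ⟨fun hh => ht1 h hh, fun hh => ?_⟩
    have := ht2 _ hh
    have h3 : t⁻¹ * (t * h * t⁻¹) * t = h := by group
    rwa [h3] at this
  have hGN : G ≤ Subgroup.normalizer (S : Set P) :=
    sup_le Subgroup.le_normalizer (Subgroup.zpowers_le.2 htN)
  have hnorm : (S.subgroupOf G).Normal := (Subgroup.normal_subgroupOf_iff_le_normalizer hSG).2 hGN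
  let π : G →* G ⧸ (S.subgroupOf G) := QuotientGroup.mk' (S.subgroupOf G)
  have hses : SES (Subgroup.inclusion hSG) π := by
    refine ⟨Subgroup.inclusion_injective hSG, QuotientGroup.mk'_surjective _, fun s => ?_⟩
    rw [show π s = ((s : G) : G ⧸ (S.subgroupOf G)) from rfl, QuotientGroup.eq_one_iff,
      Subgroup.mem_subgroupOf]
    constructor
    · intro h
      exact ⟨⟨s.1, h⟩, rfl⟩
    · rintro ⟨κ, rfl⟩
      exact κ.2
  have hgen : ∀ x, x ∈ Subgroup.zpowers (π ⟨t, htG⟩) := by
    set K : Subgroup G := (Subgroup.zpowers (π ⟨t, htG⟩)).comap π with hK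
    have h1 : G ≤ K.map G.subtype := by
      conv_lhs => rw [hG]
      refine sup_le ?_ ?_
      · intro s hs
        refine ⟨⟨s, hSG hs⟩, ?_, rfl⟩
        show π ⟨s, hSG hs⟩ ∈ Subgroup.zpowers (π ⟨t, htG⟩)
        have h2 : π ⟨s, hSG hs⟩ = 1 := (hses.ex _).2 ⟨⟨s, hs⟩, rfl⟩
        rw [h2]
        exact one_mem _
      · rw [Subgroup.zpowers_le]
        exact ⟨⟨t, htG⟩, Subgroup.mem_zpowers _, rfl⟩
    intro x
    obtain ⟨g, rfl⟩ := hses.surj x
    obtain ⟨g', hg', hgg'⟩ := h1 g.2
    have h3 : g' = g := Subtype.ext hgg'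
    rw [h3] at hg'
    exact hg'
  have hQ : FPn k (G ⧸ (S.subgroupOf G)) n := by
    rcases finite_or_infinite (G ⧸ (S.subgroupOf G)) with hfin | hinf
    · exact (hFin k n).1 _ hfin
    · obtain ⟨e⟩ := exists_equiv_int _ hgen
      exact hIso k _ _ n e (hFin k n).2
  exact hGrp k S G _ _ π hses n hS hQ

/-- TOPFP -/
theorem topfp (hChain : ChainStatement) (hGrp : FpgrpStatement) (hFin : FpfinStatement)
    (hRet : FpretStatement) (hIso : FpisoStatement) (hFg : FpfgStatement) : TopFpStatement := by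
  classical
  intro k _ _ n hn I _ _ L _ S hS hc
  have hFG : ∀ j, (pr S j).FG := by
    intro j
    have h1 : Group.FG S := hFg k S (isFP_of_le _ _ hn hS)
    have h2 : Group.FG (pr S j) :=
      Group.fg_of_surjective (MonoidHom.subgroupMap_surjective (Pi.evalMonoidHom L j) S)
    exact (Group.fg_iff_subgroup_fg _).1 h2
  have hpi : FPn k (piS Finset.univ S) n := by
    have h3 := hChain I L Finset.univ S (fun s _ i hi => absurd (Finset.mem_univ i) hi)
      (fun j _ => hFG j) (by
        obtain ⟨c, hc⟩ := hc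
        exact ⟨c, fun j _ => hc j⟩)
      (fun S' => FPn k S' n → FPn k (piS Finset.univ S) n)
      (by
        intro S' hSS' hS'pi i _ t₀ ht₀ hcomm hup hS'
        refine hup (fp_step hGrp hFin hIso k _ n S' _ ?_ ?_ hS')
        · intro s hs
          have hsi : s i ∈ pr S i := (hS'pi hs).1 i
          have h4 : Pi.mulSingle i (t₀ * s i * t₀⁻¹ * (s i)⁻¹) ∈ S' := hcomm _ hsi
          have h5 : (Pi.mulSingle i t₀ : ∀ i, L i) * s * (Pi.mulSingle i t₀)⁻¹ =
              Pi.mulSingle i (t₀ * s i * t₀⁻¹ * (s i)⁻¹) * s := by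
            funext j
            by_cases hj : j = i
            · subst hj
              simp
            · simp [hj]
          rw [h5]
          exact mul_mem h4 hs
        · intro s hs
          have hsi : s i ∈ pr S i := (hS'pi hs).1 i
          have h4 : Pi.mulSingle i (t₀ * (t₀⁻¹ * s i * t₀) * t₀⁻¹ * (t₀⁻¹ * s i * t₀)⁻¹) ∈ S' :=
            hcomm _ (mul_mem (mul_mem (inv_mem ht₀) hsi) ht₀)
          have h5 : (Pi.mulSingle i t₀ : ∀ i, L i)⁻¹ * s * Pi.mulSingle i t₀ =
              (Pi.mulSingle i (t₀ * (t₀⁻¹ * s i * t₀) * t₀⁻¹ * (t₀⁻¹ * s i * t₀)⁻¹))⁻¹ * s := by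
            funext j
            by_cases hj : j = i
            · subst hj
              simp only [Pi.mul_apply, Pi.inv_apply, Pi.mulSingle_eq_same]
              group
            · simp [hj]
          rw [h5]
          exact mul_mem (inv_mem h4) hs)
      (fun h => h)
    exact h3 hS
  intro j
  refine hRet k (pr S j) (piS Finset.univ S)
    { toFun := fun a => ⟨Pi.mulSingle j a.1, ⟨fun i => ?_, fun i hi =>
        absurd (Finset.mem_univ i) hi⟩⟩
      map_one' := ?_
      map_mul' := ?_ }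
    { toFun := fun x => ⟨x.1 j, x.2.1 j⟩
      map_one' := ?_
      map_mul' := ?_ } ?_ n hpi
  · by_cases hi : i = j
    · subst hi
      simp
    · rw [Pi.mulSingle_eq_of_ne hi]
      exact one_mem _
  · apply Subtype.ext
    simp
  · intro a b
    apply Subtype.ext
    simp [Pi.mulSingle_mul]
  · rfl
  · intro a b
    rfl
  · intro a
    apply Subtype.ext
    simp

end Pool.Agent.Lib.MP_b1a3a4_al.MVS.H29
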